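import Pool.Agent.U279.KR.GasLim

/-!
# The hard-cap model: random kissing configurations

A kissing configuration is a finite set of unit vectors of `ℝ^n` with mutual angles at least 60
degrees. The hard-cap model of activity `λ` is the random kissing configuration whose law is given by
the Poisson process of intensity `λ` (times the uniform probability measure of the sphere)
conditioned on being a kissing configuration. Let `p` be the probability that two independent uniform
random unit vectors form an angle of less than 60 degrees, so `p = (√3/2)^(n (1 + o(1)))`, and let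
`L = log₂(2/√3)`.

* Equation of state: for all activities up to `e^{(1/20 - ε) n} / p` the mean number of vectors `M`
  and the partition function `Z` satisfy `p M = (1 + o(1)) w` and `p log Z = (1 + o(1)) (w + w²/2)`,
  where `w e^w = λ p`.
* The probability that `k` independent uniform random unit vectors form a kissing configuration is
  `exp (-(1 + o(1)) k² p / 2)`, for `ε / p ≤ k ≤ (1/20 - ε) n / p`.
* At the activity `e^{x n} / p`, `0 < x < 1/20`, the mean number of vectors is `(1 + o(1)) x n / p`.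
* For every `x > 0` the exponent of the mean number of vectors at the activity `e^{x n} / p` lies
  between `L - ε` and `L + max(0, x - 1/20) / log 2 + ε`, and it tends to the exponent of the kissing
  numbers as `x → ∞`.
* `c_+ > L` (resp. `c_- > L`) if and only if at some activity `e^{x n} / p` the limsup (resp. liminf)
  of the exponent of the mean number of vectors is larger than `L`.
-/

open MeasureTheory Metric Filter Set
open scoped Topology RealInnerProductSpace
open Pool.Agent.H818R2 (kissing)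

namespace Pool.Agent.Results.MP_b5f63d_co.HardCaps

/-- The unit sphere of `ℝ^n`. -/
abbrev Sphere (n : ℕ) : Type := sphere (0 : EuclideanSpace ℝ (Fin n)) 1

/-- The uniform probability measure on the unit sphere: the normalised surface measure. -/
noncomputable def unif (n : ℕ) : Measure (Sphere n) :=
  ((volume : Measure (EuclideanSpace ℝ (Fin n))).toSphere univ)⁻¹ •
    (volume : Measure (EuclideanSpace ℝ (Fin n))).toSphere

/-- The probability that two independent uniform random unit vectors form an angle of less than 60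
degrees. -/
noncomputable def p (n : ℕ) : ℝ :=
  ((unif n).prod (unif n)).real {x | 1 / 2 < ⟪(x.1 : EuclideanSpace ℝ (Fin n)), x.2⟫}

/-- The probability that `k` independent uniform random unit vectors form a kissing configuration:
all their mutual angles are at least 60 degrees. -/
noncomputable def conf (n k : ℕ) : ℝ :=
  (Measure.pi fun _ : Fin k => unif n).real {x : Fin k → Sphere n | ∀ i j, i < j →
    ⟪(x i : EuclideanSpace ℝ (Fin n)), x j⟫ ≤ 1 / 2}

/-- The partition function of the hard-cap model of activity `lam`. -/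
noncomputable def partition (n : ℕ) (lam : ℝ) : ℝ := ∑' k : ℕ, lam ^ k / k.factorial * conf n k

/-- The mean number of vectors of the hard-cap model of activity `lam`, in which a kissing
configuration of `k` vectors has the probability density proportional to `lam ^ k / k!`. -/
noncomputable def meanSize (n : ℕ) (lam : ℝ) : ℝ :=
  (∑' k : ℕ, (k : ℝ) * (lam ^ k / k.factorial * conf n k)) / partition n lam

/-- The exponent of the mean number of vectors at the activity `e^{x n} / p`. -/
noncomputable def gasRate (x : ℝ) (n : ℕ) : ℝ :=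
  Real.logb 2 (meanSize n (Real.exp (x * n) / p n)) / n

theorem p_eq {n : ℕ} (hn : 2 ≤ n) : p n = Pool.Agent.U279.KR.pn n := by
  obtain ⟨c, rfl⟩ : ∃ c, n = c + 2 := ⟨n - 2, by omega⟩
  show (((Pool.Agent.U279.KR.mu (c + 2)).prod (Pool.Agent.U279.KR.mu (c + 2))).real
    {x | 1 / 2 < ⟪(x.1 : EuclideanSpace ℝ (Fin (c + 2))), x.2⟫}) = Pool.Agent.U279.KR.pc c (1 / 2)
  have hm : MeasurableSet {x : Sphere (c + 2) × Sphere (c + 2) |
      1 / 2 < ⟪(x.1 : EuclideanSpace ℝ (Fin (c + 2))), x.2⟫} := by
    have hc : Continuous fun x : Sphere (c + 2) × Sphere (c + 2) =>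
        ⟪(x.1 : EuclideanSpace ℝ (Fin (c + 2))), (x.2 : EuclideanSpace ℝ (Fin (c + 2)))⟫ := by
      fun_prop
    exact (isOpen_lt continuous_const hc).measurableSet
  have h0 : 0 ≤ Pool.Agent.U279.KR.pc c (1 / 2) := by
    unfold Pool.Agent.U279.KR.pc Pool.Agent.U279.KR.capS
    positivity
  rw [measureReal_def, Measure.prod_apply hm]
  have h1 : ∀ x : Sphere (c + 2), Pool.Agent.U279.KR.mu (c + 2) (Prod.mk x ⁻¹'
      {x : Sphere (c + 2) × Sphere (c + 2) |
        1 / 2 < ⟪(x.1 : EuclideanSpace ℝ (Fin (c + 2))), x.2⟫}) =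
      ENNReal.ofReal (Pool.Agent.U279.KR.pc c (1 / 2)) := by
    intro x
    rw [← Pool.Agent.U279.KR.mu_cap c (1 / 2) x, measureReal_def,
      ENNReal.ofReal_toReal (measure_ne_top _ _)]
    rfl
  simp only [h1]
  rw [lintegral_const, measure_univ, mul_one, ENNReal.toReal_ofReal h0]

theorem conf_eq (n k : ℕ) : conf n k =
    Pool.Agent.U279.KR.confG (Pool.Agent.U279.KR.mu n) (Pool.Agent.U279.KR.Rs n (1 / 2)) k := by
  unfold conf Pool.Agent.U279.KR.confG Pool.Agent.U279.KR.Rs
  simp only [not_lt]
  rfl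

theorem partition_eq (n : ℕ) (lam : ℝ) : partition n lam =
    Pool.Agent.U279.KR.ZG (Pool.Agent.U279.KR.mu n) (Pool.Agent.U279.KR.Rs n (1 / 2)) lam := by
  unfold partition Pool.Agent.U279.KR.ZG
  simp only [conf_eq]

theorem meanSize_eq (n : ℕ) (lam : ℝ) : meanSize n lam = Pool.Agent.U279.KR.mS n lam := by
  unfold meanSize Pool.Agent.U279.KR.mS Pool.Agent.U279.KR.meanG
  rw [partition_eq]
  simp only [conf_eq]

theorem gasRate_eq {n : ℕ} (hn : 2 ≤ n) (x : ℝ) : gasRate x n = Pool.Agent.U279.KR.gasExp x n := by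
  unfold gasRate Pool.Agent.U279.KR.gasExp
  rw [meanSize_eq, p_eq hn]

theorem gasRate_ev (x : ℝ) : gasRate x =ᶠ[atTop] Pool.Agent.U279.KR.gasExp x := by
  filter_upwards [eventually_ge_atTop 2] with n hn
  exact gasRate_eq hn x

theorem result :
    -- (0) the two-point probability
    Tendsto (fun n : ℕ => -(Real.logb 2 (p n)) / n) atTop (𝓝 (Real.logb 2 (2 / √3))) ∧
    -- (1) the equation of state, for all activities `w e^w / p` up to `e^{(1/20 - ε) n} / p`
    (∀ ε : ℝ, 0 < ε → ∃ n₀ : ℕ, ∀ n : ℕ, n₀ ≤ n → ∀ w : ℝ, 0 < w →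
      w * Real.exp w ≤ Real.exp ((1 / 20 - ε) * n) →
      |p n * meanSize n (w * Real.exp w / p n) - w| ≤ ε * w ∧
      |p n * Real.log (partition n (w * Real.exp w / p n)) - (w + w ^ 2 / 2)| ≤
        ε * (w + w ^ 2 / 2)) ∧
    -- (2) the probability that `k` random unit vectors form a kissing configuration
    (∀ ε : ℝ, 0 < ε → ∃ n₀ : ℕ, ∀ n : ℕ, n₀ ≤ n → ∀ k : ℕ, ε ≤ k * p n →
      k * p n ≤ (1 / 20 - ε) * n →
      0 < conf n k ∧ |Real.log (conf n k) + (k : ℝ) ^ 2 * p n / 2| ≤ ε * ((k : ℝ) ^ 2 * p n)) ∧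
    -- (3) the mean number of vectors at the activity `e^{x n} / p`, `0 < x < 1/20`
    (∀ x : ℝ, 0 < x → x < 1 / 20 →
      Tendsto (fun n : ℕ => p n * meanSize n (Real.exp (x * n) / p n) / n) atTop (𝓝 x)) ∧
    -- (4) the exponent of the mean number of vectors, for all `x > 0`
    (∀ x ε : ℝ, 0 < x → 0 < ε → ∀ᶠ n : ℕ in atTop,
      Real.logb 2 (2 / √3) - ε ≤ gasRate x n ∧
      gasRate x n ≤ min (Real.logb 2 (kissing n) / n)
        (Real.logb 2 (2 / √3) + max 0 (x - 1 / 20) / Real.log 2 + ε)) ∧
    -- (5) the exponent approaches the one of the kissing numbers for large `x`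
    (∀ ε : ℝ, 0 < ε → ∃ x₀ : ℝ, 0 < x₀ ∧ ∀ᶠ n : ℕ in atTop, ∀ x : ℝ, x₀ ≤ x →
      Real.logb 2 (kissing n) / n - ε ≤ gasRate x n) ∧
    -- (6) `c_+ > log₂ (2/√3)` if and only if at some activity `e^{x n} / p` the hard-cap model has
    -- exponentially more than `(2/√3)^n` vectors for infinitely many `n`, and `c_- > log₂ (2/√3)` if
    -- and only if it has for all large `n`
    (Real.logb 2 (2 / √3) < limsup (fun n : ℕ => Real.logb 2 (kissing n) / n) atTop ↔
      ∃ x : ℝ, 0 < x ∧ Real.logb 2 (2 / √3) < limsup (gasRate x) atTop) ∧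
    (Real.logb 2 (2 / √3) < liminf (fun n : ℕ => Real.logb 2 (kissing n) / n) atTop ↔
      ∃ x : ℝ, 0 < x ∧ Real.logb 2 (2 / √3) < liminf (gasRate x) atTop) := by
  obtain ⟨nH, hn3, hH⟩ := Pool.Agent.U279.KR.hyp_sph
  refine ⟨?_, ?_, ?_, ?_, ?_, ?_, ?_, ?_⟩
  · rw [Metric.tendsto_nhds]
    intro ε hε
    filter_upwards [Pool.Agent.U279.KR.logb_pn_le (half_pos hε),
      Pool.Agent.U279.KR.le_logb_pn (half_pos hε), eventually_ge_atTop 3] with n h1 h2 hn
    have hn0 : (0 : ℝ) < n := by exact_mod_cast (by omega : 0 < n)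
    rw [p_eq (by omega), Real.dist_eq]
    rw [← div_le_iff₀ hn0] at h1
    rw [← le_div_iff₀ hn0] at h2
    change |-Real.logb 2 (Pool.Agent.U279.KR.pn n) / n - Pool.Agent.U279.KR.L2| < ε
    rw [abs_lt]
    constructor <;> linarith
  · intro ε hε
    obtain ⟨n₁, h1⟩ := Pool.Agent.U279.KR.state_G hε
    refine ⟨max nH n₁, fun n hn w hw hwe => ?_⟩
    have hn1 : nH ≤ n := (le_max_left _ _).trans hn
    have hn2 : n₁ ≤ n := (le_max_right _ _).trans hn
    have hn3' : 3 ≤ n := hn3.trans hn1
    haveI := Pool.Agent.U279.KR.prob_n (n := n) (by omega)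
    rw [p_eq (by omega), partition_eq, meanSize_eq]
    exact h1 n hn2 _ _ _ _ (hH n hn1) w hw hwe
  · intro ε hε
    obtain ⟨n₁, h1⟩ := Pool.Agent.U279.KR.canon_G hε
    refine ⟨max nH n₁, fun n hn k hk1 hk2 => ?_⟩
    have hn1 : nH ≤ n := (le_max_left _ _).trans hn
    have hn2 : n₁ ≤ n := (le_max_right _ _).trans hn
    have hn3' : 3 ≤ n := hn3.trans hn1
    haveI := Pool.Agent.U279.KR.prob_n (n := n) (by omega)
    rw [p_eq (by omega)] at hk1 hk2 ⊢
    rw [conf_eq]
    exact h1 n hn2 _ _ _ _ (hH n hn1) k hk1 hk2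
  · intro x hx hx1
    rw [Metric.tendsto_nhds]
    intro ε hε
    filter_upwards [Pool.Agent.U279.KR.gas_dens hx hx1 (half_pos hε),
      eventually_ge_atTop 3] with n h hn
    rw [p_eq (by omega), meanSize_eq, Real.dist_eq]
    linarith
  · intro x ε hx hε
    filter_upwards [Pool.Agent.U279.KR.gas_low hx hε, Pool.Agent.U279.KR.gas_up hx.le hε,
      eventually_ge_atTop 3] with n h1 h2 hn
    rw [gasRate_eq (by omega)]
    exact ⟨h1, le_min (Pool.Agent.U279.KR.gas_le_rate hn x) h2⟩
  · intro ε hε
    obtain ⟨x₀, hx₀, h⟩ := Pool.Agent.U279.KR.gas_net hε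
    refine ⟨x₀, hx₀, ?_⟩
    filter_upwards [h, eventually_ge_atTop 3] with n h hn x hx
    rw [gasRate_eq (by omega)]
    exact h.trans (Pool.Agent.U279.KR.gas_mono hn hx)
  · refine Pool.Agent.U279.KR.gas_limsup.trans (exists_congr fun x => and_congr_right fun _ => ?_)
    rw [limsup_congr (gasRate_ev x)]
    rfl
  · refine Pool.Agent.U279.KR.gas_liminf.trans (exists_congr fun x => and_congr_right fun _ => ?_)
    rw [liminf_congr (gasRate_ev x)]
    rfl

end Pool.Agent.Results.MP_b5f63d_co.HardCaps
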