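import Pool.Agent.U26.HM.Codes

/-!
# Homogeneous kissing configurations

For a set `Y` of unit vectors of `ℝ^n` and a shape of `h` points at the resolution `1 / M` (the
integers `k i j`, `i, j < h`; a sequence `z` of `h` points has this shape if `⟪z i, z j⟫` is in
`[k i j / M, (k i j + 1) / M)` for all `i, j`), count the sequences of this shape in `Y` which
contain a given point of `Y`. The set `Y` is `m`-homogeneous if for all `h, M ≤ m` and all shapes
these numbers, for any two points of `Y`, agree up to the factor `exp (n / m)`.

Every set of at most `exp (D n)` unit vectors contains an `m`-homogeneous subset of proportion at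
least `c = c(D, m) > 0`, which does not depend on the dimension. So for every `m` the largest
`m`-homogeneous kissing configurations have the size of the kissing number up to a constant, and
there are kissing configurations of optimal exponent which are asymptotically homogeneous of every
order: `c_-` and `c_+` are the lower and the upper exponent of such a sequence. The same holds for
spherical codes of every angle.

Proof: remove, one after the other, the points which are in few sequences of some shape. If at
least half of the points remain, all remaining points are in many sequences of each shape. If not,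
a positive proportion of the points was removed because of one and the same shape; inside the set of
these points the sequences of this shape are few, because every sequence contains a point which was
removed first, and so a large part of it has a smaller maximal number of sequences through a point.
This happens only a bounded number of times for each shape.
-/

set_option autoImplicit false

open Filter Pool.Agent.H818R2 Pool.Agent.U26.HM
open scoped Topology

namespace Pool.Agent.Results.MP_b5f63d_co.HomogeneousConfigurations

theorem result :
    -- homogeneous subsets of positive proportion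
    (∀ (D : ℝ) (m : ℕ), ∃ c : ℝ, 0 < c ∧ ∀ (n : ℕ) (X : Finset (EuclideanSpace ℝ (Fin n))),
      (∀ x ∈ X, ‖x‖ = 1) → (X.card : ℝ) ≤ Real.exp (D * n) →
      ∃ Y, Y ⊆ X ∧ Homogeneous m Y ∧ c * X.card ≤ Y.card) ∧
    -- spherical codes of every angle
    (∀ θ : ℝ, 0 < θ → θ ≤ Real.pi →
      (∀ m : ℕ, ∃ c : ℝ, 0 < c ∧ ∀ (n : ℕ) (X : Finset (EuclideanSpace ℝ (Fin n))),
        IsSphCode n θ X → ∃ Y, Y ⊆ X ∧ Homogeneous m Y ∧ c * X.card ≤ Y.card) ∧
      ∃ Y : (n : ℕ) → Finset (EuclideanSpace ℝ (Fin n)), (∀ n, IsSphCode n θ (Y n)) ∧
        (∀ m, ∀ᶠ n : ℕ in atTop, Homogeneous m (Y n)) ∧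
        Tendsto (fun n : ℕ => Real.logb 2 (Y n).card / n - Real.logb 2 (sphMax n θ) / n)
          atTop (𝓝 0)) ∧
    -- the exponents of the kissing numbers
    ∃ Y : (n : ℕ) → Finset (EuclideanSpace ℝ (Fin n)), (∀ n, IsSphCode n (Real.pi / 3) (Y n)) ∧
      (∀ m, ∀ᶠ n : ℕ in atTop, Homogeneous m (Y n)) ∧
      liminf (fun n : ℕ => Real.logb 2 (Y n).card / n) atTop =
        liminf (fun n : ℕ => Real.logb 2 (kissing n) / n) atTop ∧
      limsup (fun n : ℕ => Real.logb 2 (Y n).card / n) atTop =
        limsup (fun n : ℕ => Real.logb 2 (kissing n) / n) atTop := by
  refine ⟨exists_homogeneous, ?_, ?_⟩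
  · intro θ h0 h1
    have hs : 0 < Real.sin (θ / 2) := Real.sin_pos_of_pos_of_lt_pi (by linarith) (by linarith)
    exact ⟨fun m => code_part hs m, exists_seq hs⟩
  · have hs : 0 < Real.sin (Real.pi / 3 / 2) :=
      Real.sin_pos_of_pos_of_lt_pi (by positivity) (by linarith [Real.pi_pos])
    obtain ⟨Y, h1, h2, h3⟩ := exists_seq hs
    exact ⟨Y, h1, h2, Pool.Agent.U26.SP.lim_eq (codeRate_le hs) (codeRate_nonneg _) h3⟩

end Pool.Agent.Results.MP_b5f63d_co.HomogeneousConfigurations
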