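import Pool.Agent.U279.KR.Lim

/-!
# Kissing configurations in random sets of unit vectors

Let `X` consist of `N` independent uniform random unit vectors of `ℝ^n`, let `p` be the probability
that two of them form an angle of less than 60 degrees (so `p = (√3/2)^(n (1 + o(1)))`) and write
`N = e^{x n} / p`, so that each vector of `X` has about `e^{x n}` others of `X` within 60 degrees. We
study the largest kissing configurations contained in `X`, of size `best X`.

* For `0 < x < 1/20` the largest kissing configuration in `X` has exactly the order `n / p`: with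
  probability near one `best X * p / n` lies between `min(x, log(9/8)/4) - ε` and `K(x) + ε`, where
  `K(x) = 2 x` for `x ≤ 1/40` and `K(x) = 1 / (40 (1 - 20 x))` for `x ≥ 1/40`. So fewer than
  `e^{n/20} / p` random unit vectors never contain a kissing configuration which is larger than the
  bound of Chabauty, Shannon and Wyner by more than a factor linear in `n`.
* For every `x > 0` the exponent of the largest kissing configuration is at least
  `log₂(2/√3) - ε` and at most `log₂(2/√3) + max(0, x - 1/20) / log 2 + ε`.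
* The exponent tends to the one of the kissing numbers as `x → ∞`.
* `c_+ > log₂(2/√3)` (resp. `c_- > log₂(2/√3)`) if and only if, for some finite `x`, random sets of
  `e^{x n} / p` unit vectors contain kissing configurations exponentially larger than `(2/√3)^n`, for
  infinitely many `n` (resp. for all large `n`).
-/

open MeasureTheory Metric Filter Set
open scoped Topology RealInnerProductSpace
open Pool.Agent.H818R2 (kissing)

namespace Pool.Agent.Results.MP_b5f63d_co.KissingInRandomSets

/-- The unit sphere of `ℝ^n`. -/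
abbrev Sphere (n : ℕ) : Type := sphere (0 : EuclideanSpace ℝ (Fin n)) 1

/-- The uniform probability measure on the unit sphere: the normalised surface measure. -/
noncomputable def unif (n : ℕ) : Measure (Sphere n) :=
  ((volume : Measure (EuclideanSpace ℝ (Fin n))).toSphere univ)⁻¹ •
    (volume : Measure (EuclideanSpace ℝ (Fin n))).toSphere

/-- The probability that two independent uniform random unit vectors form an angle of less than 60
degrees. -/
noncomputable def p (n : ℕ) : ℝ :=
  ((unif n).prod (unif n)).real {x | 1 / 2 < ⟪(x.1 : EuclideanSpace ℝ (Fin n)), x.2⟫}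

/-- The law of `N` independent uniform random unit vectors. -/
noncomputable def law (n N : ℕ) : Measure (Fin N → Sphere n) := Measure.pi fun _ : Fin N => unif n

/-- The largest number of the vectors `X` with mutual angles at least 60 degrees. -/
noncomputable def best {n N : ℕ} (X : Fin N → Sphere n) : ℕ :=
  sSup {k | ∃ s : Finset (Fin N), (∀ i ∈ s, ∀ j ∈ s, i ≠ j →
    ⟪(X i : EuclideanSpace ℝ (Fin n)), X j⟫ ≤ 1 / 2) ∧ s.card = k}

/-- The constant of the lower bound. -/
noncomputable def lowerK (x : ℝ) : ℝ := min x (Real.log (9 / 8) / 4)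

/-- The constant of the upper bound. -/
noncomputable def upperK (x : ℝ) : ℝ := if x ≤ 1 / 40 then 2 * x else 1 / (40 * (1 - 20 * x))

/-- The number of points: `e^{x n} / p`, rounded up. -/
noncomputable def count (x : ℝ) (n : ℕ) : ℕ := ⌈Real.exp (x * n) / p n⌉₊

/-- The exponent of the largest kissing configuration. -/
noncomputable def expo {n N : ℕ} (X : Fin N → Sphere n) : ℝ := Real.logb 2 (best X) / n

theorem unif_eq (n : ℕ) : unif n = Pool.Agent.U279.KR.mu n := rfl

theorem p_eq {n : ℕ} (hn : 2 ≤ n) : p n = Pool.Agent.U279.KR.pn n := by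
  obtain ⟨c, rfl⟩ : ∃ c, n = c + 2 := ⟨n - 2, by omega⟩
  show (((Pool.Agent.U279.KR.mu (c + 2)).prod (Pool.Agent.U279.KR.mu (c + 2))).real
    {x | 1 / 2 < ⟪(x.1 : EuclideanSpace ℝ (Fin (c + 2))), x.2⟫}) = Pool.Agent.U279.KR.pc c (1 / 2)
  have hm : MeasurableSet {x : Sphere (c + 2) × Sphere (c + 2) |
      1 / 2 < ⟪(x.1 : EuclideanSpace ℝ (Fin (c + 2))), x.2⟫} := by
    have hc : Continuous fun x : Sphere (c + 2) × Sphere (c + 2) =>
        ⟪(x.1 : EuclideanSpace ℝ (Fin (c + 2))), (x.2 : EuclideanSpace ℝ (Fin (c + 2)))⟫ := by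
      fun_prop
    exact (isOpen_lt continuous_const hc).measurableSet
  have h0 : 0 ≤ Pool.Agent.U279.KR.pc c (1 / 2) := by
    unfold Pool.Agent.U279.KR.pc Pool.Agent.U279.KR.capS
    positivity
  rw [measureReal_def, Measure.prod_apply hm]
  have h1 : ∀ x : Sphere (c + 2), Pool.Agent.U279.KR.mu (c + 2) (Prod.mk x ⁻¹'
      {x : Sphere (c + 2) × Sphere (c + 2) |
        1 / 2 < ⟪(x.1 : EuclideanSpace ℝ (Fin (c + 2))), x.2⟫}) =
      ENNReal.ofReal (Pool.Agent.U279.KR.pc c (1 / 2)) := by
    intro x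
    rw [← Pool.Agent.U279.KR.mu_cap c (1 / 2) x, measureReal_def,
      ENNReal.ofReal_toReal (measure_ne_top _ _)]
    rfl
  simp only [h1]
  rw [lintegral_const, measure_univ, mul_one, ENNReal.toReal_ofReal h0]

theorem best_eq {n N : ℕ} (X : Fin N → Sphere n) :
    best X = Pool.Agent.U279.KR.best (Pool.Agent.U279.KR.Rs n (1 / 2)) X := by
  unfold best Pool.Agent.U279.KR.best Pool.Agent.U279.KR.Pk Pool.Agent.U279.KR.Rs
  simp only [not_lt]

theorem expo_eq {n N : ℕ} (X : Fin N → Sphere n) :
    expo X = Pool.Agent.U279.KR.expo n X := by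
  unfold expo Pool.Agent.U279.KR.expo
  rw [best_eq]

theorem count_eq {n : ℕ} (hn : 2 ≤ n) (x : ℝ) : count x n = Pool.Agent.U279.KR.nN x n := by
  unfold count Pool.Agent.U279.KR.nN
  rw [p_eq hn]

theorem upperK_eq (x : ℝ) : upperK x = Pool.Agent.U279.KR.upc x := by
  unfold upperK Pool.Agent.U279.KR.upc Pool.Agent.U279.KR.y0
  have h : (1 / 40 : ℝ) = 1 / 20 / 2 := by norm_num
  rw [h]
  split_ifs
  · rfl
  · have e : (1 / 20 : ℝ) - x = (1 - 20 * x) / 20 := by ring
    rw [e]
    by_cases h0 : 1 - 20 * x = 0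
    · rw [h0]
      norm_num
    · field_simp
      norm_num

theorem big_iff {n N : ℕ} (hn : 3 ≤ n) (hN : 0 < N) (η : ℝ) (X : Fin N → Sphere n) :
    (2 / √3) ^ n * (2 : ℝ) ^ (η * n) ≤ best X ↔
      Pool.Agent.U279.KR.L2 + η ≤ Pool.Agent.U279.KR.expo n X := by
  have hn0 : (0 : ℝ) < n := by exact_mod_cast (by omega : 0 < n)
  have hb : (1 : ℝ) ≤ Pool.Agent.U279.KR.best (Pool.Agent.U279.KR.Rs n (1 / 2)) X := by
    exact_mod_cast Pool.Agent.U279.KR.one_le_best hN X
  have e : (2 : ℝ) ^ (Real.logb 2 (2 / √3) * n) = (2 / √3) ^ n := by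
    rw [Real.rpow_mul_natCast (by norm_num),
      Real.rpow_logb (by norm_num) (by norm_num) (by positivity)]
  rw [best_eq]
  unfold Pool.Agent.U279.KR.expo Pool.Agent.U279.KR.L2
  rw [le_div_iff₀ hn0, Real.le_logb_iff_rpow_le (by norm_num) (by positivity), add_mul,
    Real.rpow_add (by norm_num), e]

theorem result :
    -- (0) the two-point probability
    Tendsto (fun n : ℕ => -(Real.logb 2 (p n)) / n) atTop (𝓝 (Real.logb 2 (2 / √3))) ∧
    -- (1) the largest kissing configuration among `e^{x n} / p` random unit vectors, `0 ≤ x < 1/20`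
    (∀ ε : ℝ, 0 < ε → ∃ n₀ : ℕ, ∀ n : ℕ, n₀ ≤ n → ∀ (x : ℝ) (N : ℕ), 0 ≤ x → x ≤ 1 / 20 - ε →
      N * p n = Real.exp (x * n) →
        1 - ε ≤ (law n N).real {X | (lowerK x - ε) * n ≤ best X * p n ∧
          best X * p n ≤ (upperK x + ε) * n}) ∧
    -- (2) the exponent of the largest kissing configuration, for all `x > 0`
    (∀ x ε : ℝ, 0 < x → 0 < ε → ∀ᶠ n : ℕ in atTop,
      1 - ε ≤ (law n (count x n)).real {X | Real.logb 2 (2 / √3) - ε ≤ expo X ∧
        expo X ≤ min (Real.logb 2 (kissing n) / n)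
          (Real.logb 2 (2 / √3) + max 0 (x - 1 / 20) / Real.log 2 + ε)}) ∧
    -- (3) the exponent approaches the one of the kissing numbers for large `x`
    (∀ ε : ℝ, 0 < ε → ∃ x₀ : ℝ, 0 < x₀ ∧ ∀ᶠ n : ℕ in atTop, ∀ N : ℕ,
      Real.exp (x₀ * n) ≤ N * p n →
        1 - ε ≤ (law n N).real {X | Real.logb 2 (kissing n) / n - ε ≤ expo X}) ∧
    -- (4) `c_+ > log₂ (2/√3)` if and only if random sets of `e^{x n} / p` unit vectors contain
    -- kissing configurations exponentially larger than `(2/√3)^n` for infinitely many `n`, and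
    -- `c_- > log₂ (2/√3)` if and only if they do for all large `n`
    (Real.logb 2 (2 / √3) < limsup (fun n : ℕ => Real.logb 2 (kissing n) / n) atTop ↔
      ∃ x : ℝ, 0 < x ∧ ∃ η : ℝ, 0 < η ∧ ∃ᶠ n : ℕ in atTop,
        1 / 2 ≤ (law n (count x n)).real {X | (2 / √3) ^ n * (2 : ℝ) ^ (η * n) ≤ best X}) ∧
    (Real.logb 2 (2 / √3) < liminf (fun n : ℕ => Real.logb 2 (kissing n) / n) atTop ↔
      ∃ x : ℝ, 0 < x ∧ ∃ η : ℝ, 0 < η ∧ ∀ᶠ n : ℕ in atTop,
        1 / 2 ≤ (law n (count x n)).real {X | (2 / √3) ^ n * (2 : ℝ) ^ (η * n) ≤ best X}) := by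
  have key : ∀ (x η : ℝ) (n : ℕ), 3 ≤ n → (1 / 2 ≤ (law n (count x n)).real
      {X | (2 / √3) ^ n * (2 : ℝ) ^ (η * n) ≤ best X} ↔
      1 / 2 ≤ (Pool.Agent.U279.KR.lawG (Pool.Agent.U279.KR.mu n) (Pool.Agent.U279.KR.nN x n)).real
        {X | Pool.Agent.U279.KR.L2 + η ≤ Pool.Agent.U279.KR.expo n X}) := by
    intro x η n hn
    rw [count_eq (by omega)]
    have : {X : Fin (Pool.Agent.U279.KR.nN x n) → Sphere n |
        (2 / √3) ^ n * (2 : ℝ) ^ (η * n) ≤ best X} =
        {X | Pool.Agent.U279.KR.L2 + η ≤ Pool.Agent.U279.KR.expo n X} := by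
      ext X
      exact big_iff hn (Pool.Agent.U279.KR.nN_pos x hn) η X
    rw [this]
    rfl
  refine ⟨?_, ?_, ?_, ?_, ?_, ?_⟩
  · rw [Metric.tendsto_nhds]
    intro ε hε
    filter_upwards [Pool.Agent.U279.KR.logb_pn_le (half_pos hε),
      Pool.Agent.U279.KR.le_logb_pn (half_pos hε), eventually_ge_atTop 3] with n h1 h2 hn
    have hn0 : (0 : ℝ) < n := by exact_mod_cast (by omega : 0 < n)
    rw [p_eq (by omega), Real.dist_eq]
    rw [← div_le_iff₀ hn0] at h1
    rw [← le_div_iff₀ hn0] at h2
    change |-Real.logb 2 (Pool.Agent.U279.KR.pn n) / n - Pool.Agent.U279.KR.L2| < ε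
    rw [abs_lt]
    constructor <;> linarith
  · intro ε hε
    obtain ⟨n₀, h⟩ := Pool.Agent.U279.KR.main1 hε
    refine ⟨max n₀ 2, fun n hn x N h0 h1 hN => ?_⟩
    have hn2 : 2 ≤ n := (le_max_right _ _).trans hn
    rw [p_eq hn2] at hN ⊢
    have h2 := h n ((le_max_left _ _).trans hn) x N h0 h1 hN
    refine h2.trans (le_of_eq ?_)
    congr 1
    ext X
    simp only [mem_ofPred_eq, best_eq X, upperK_eq]
    rfl
  · intro x ε hx hε
    filter_upwards [Pool.Agent.U279.KR.main2 hx hε, eventually_ge_atTop 2] with n h hn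
    rw [count_eq hn]
    refine h.trans (le_of_eq ?_)
    congr 1
    ext X
    simp only [mem_ofPred_eq, expo_eq X]
    rfl
  · intro ε hε
    obtain ⟨x₀, hx₀, h⟩ := Pool.Agent.U279.KR.net_ev hε
    refine ⟨x₀, hx₀, ?_⟩
    filter_upwards [h, eventually_ge_atTop 2] with n h hn N hN
    rw [p_eq hn] at hN
    refine (h N hN).trans (le_of_eq ?_)
    congr 1
    ext X
    simp only [mem_ofPred_eq, expo_eq X]
    rfl
  · refine Pool.Agent.U279.KR.crit_limsup.trans ?_
    refine exists_congr fun x => and_congr_right fun _ => exists_congr fun η =>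
      and_congr_right fun _ => ?_
    refine frequently_congr ?_
    filter_upwards [eventually_ge_atTop 3] with n hn
    exact (key x η n hn).symm
  · refine Pool.Agent.U279.KR.crit_liminf.trans ?_
    refine exists_congr fun x => and_congr_right fun _ => exists_congr fun η =>
      and_congr_right fun _ => ?_
    refine eventually_congr ?_
    filter_upwards [eventually_ge_atTop 3] with n hn
    exact (key x η n hn).symm

end Pool.Agent.Results.MP_b5f63d_co.KissingInRandomSets
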