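import Pool.Agent.U26.KP.Rates

/-!
# Kissing configurations and permutation codes

There are unit vectors `g_n` of `ℝ^n` such that, for every angle `0 < θ < π`, the spherical codes of
angular distance at least `θ` all whose points are obtained from the single vector `g_n` by
permutations of its coordinates reach the exponents of arbitrary spherical codes. In particular the
exponents `c_-` and `c_+` of the kissing numbers are the lower and upper exponents of the largest
kissing configurations contained in the orbit of `g_n` under the symmetric group `S_n`.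

Proof: rounding the coordinates to multiples of about `n^(-5/8)` changes a unit vector by `o(1)`;
the multiset of the rounded coordinates has `exp (o(n))` possible values, hence for a random rotation
one of them (which only depends on `n`) has probability `exp (- o(n))`; the loss of angle is
compensated by passing to the points whose coordinates in one of `B` blocks are nearly the same.
-/

set_option autoImplicit false

open Filter Pool.Agent.H818R2 Pool.Agent.U26.KP
open scoped Topology

namespace Pool.Agent.Results.MP_b5f63d_co.PermutationCodes

theorem result : ∃ g : (n : ℕ) → EuclideanSpace ℝ (Fin n), (∀ n, 0 < n → ‖g n‖ = 1) ∧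
    (∀ θ : ℝ, 0 < θ → θ < Real.pi →
      Tendsto (fun n : ℕ => Real.logb 2 (orbMax (g n) θ) / n - Real.logb 2 (sphMax n θ) / n)
        atTop (𝓝 0) ∧
      liminf (fun n : ℕ => Real.logb 2 (orbMax (g n) θ) / n) atTop =
        liminf (fun n : ℕ => Real.logb 2 (sphMax n θ) / n) atTop ∧
      limsup (fun n : ℕ => Real.logb 2 (orbMax (g n) θ) / n) atTop =
        limsup (fun n : ℕ => Real.logb 2 (sphMax n θ) / n) atTop) ∧
    liminf (fun n : ℕ => Real.logb 2 (orbMax (g n) (Real.pi / 3)) / n) atTop =
      liminf (fun n : ℕ => Real.logb 2 (kissing n) / n) atTop ∧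
    limsup (fun n : ℕ => Real.logb 2 (orbMax (g n) (Real.pi / 3)) / n) atTop =
      limsup (fun n : ℕ => Real.logb 2 (kissing n) / n) atTop := by
  have h : ∀ θ : ℝ, 0 < θ → θ < Real.pi →
      Tendsto (fun n : ℕ => Real.logb 2 (orbMax (gv n) θ) / n - codeRate θ n) atTop (𝓝 0) ∧
      liminf (fun n : ℕ => Real.logb 2 (orbMax (gv n) θ) / n) atTop =
        liminf (codeRate θ) atTop ∧
      limsup (fun n : ℕ => Real.logb 2 (orbMax (gv n) θ) / n) atTop =
        limsup (codeRate θ) atTop := by
    intro θ h0 h1
    have hs : 0 < Real.sin (θ / 2) := Real.sin_pos_of_pos_of_lt_pi (by linarith) (by linarith)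
    have h2 := orb_tendsto h0 h1
    exact ⟨h2, Pool.Agent.U26.SP.lim_eq (codeRate_le hs) (codeRate_nonneg θ) h2⟩
  refine ⟨gv, fun n hn => gv_norm hn, h, ?_⟩
  exact (h (Real.pi / 3) (by positivity) (by linarith [Real.pi_pos])).2

end Pool.Agent.Results.MP_b5f63d_co.PermutationCodes
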